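import Pool.Agent.Helper15.PE.St

/-!
# From the best chord to all chords
-/

set_option autoImplicit false
open Classical

namespace Pool.Agent.Helper19.PE

open Pool.Agent.Helper15.PE
open Pool.Agent.Helper14.J1 (IsLE desN)

/-- value at `k` of the chord through `(i, u)` and `(j, v)` -/
noncomputable def ch (k i j u v : ℝ) : ℝ := ((j - k) * u + (k - i) * v) / (j - i)

theorem ch_tilt {k i j u v l : ℝ} (h : i < j) :
    ch k i j (u + i * l) (v + j * l) = ch k i j u v + k * l := by
  unfold ch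
  have h1 : j - i ≠ 0 := by
    have : 0 < j - i := by linarith
    exact this.ne'
  rw [eq_comm, eq_div_iff h1, add_mul, div_mul_cancel₀ _ h1]
  ring

theorem ch_min {k i j u v : ℝ} (h1 : i < k) (h2 : k < j) : min u v ≤ ch k i j u v := by
  unfold ch
  have h3 : 0 < j - i := by linarith
  rw [le_div_iff₀ h3]
  have h4 : min u v ≤ u := min_le_left _ _
  have h5 : min u v ≤ v := min_le_right _ _
  have h6 : (j - k) * min u v ≤ (j - k) * u := mul_le_mul_of_nonneg_left h4 (by linarith)
  have h7 : (k - i) * min u v ≤ (k - i) * v := mul_le_mul_of_nonneg_left h5 (by linarith)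
  have h8 : min u v * (j - i) = (j - k) * min u v + (k - i) * min u v := by ring
  linarith

theorem ch_left {k i j u w : ℝ} (h1 : i < k) (h2 : k < j) (h : w < u) : w < ch k i j u w := by
  unfold ch
  have h3 : 0 < j - i := by linarith
  rw [lt_div_iff₀ h3]
  have h6 : (j - k) * w < (j - k) * u := mul_lt_mul_of_pos_left h (by linarith)
  have h8 : w * (j - i) = (j - k) * w + (k - i) * w := by ring
  linarith

theorem ch_right {k i j v w : ℝ} (h1 : i < k) (h2 : k < j) (h : w < v) : w < ch k i j w v := by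
  unfold ch
  have h3 : 0 < j - i := by linarith
  rw [lt_div_iff₀ h3]
  have h6 : (k - i) * w < (k - i) * v := mul_lt_mul_of_pos_left h (by linarith)
  have h8 : w * (j - i) = (j - k) * w + (k - i) * w := by ring
  linarith

theorem ch_same {k i j w : ℝ} (h : i < j) : ch k i j w w = w := by
  unfold ch
  have h1 : j - i ≠ 0 := by
    have : 0 < j - i := by linarith
    exact this.ne'
  rw [div_eq_iff h1]
  ring

/-- a positive term in exponential form -/
theorem term_eq {a : ℕ → ℕ} {q : ℕ} (h : 0 < a q) (l : ℝ) :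
    (a q : ℝ) * Real.exp l ^ q = Real.exp (Real.log (a q) + q * l) := by
  have h1 : (0 : ℝ) < a q := by exact_mod_cast h
  rw [Real.exp_add, Real.exp_log h1, Real.exp_nat_mul]

/-- The best chord. -/
theorem best {N : ℕ} {a : ℕ → ℕ} {k : ℕ} {i j : ℕ} (hz : ∀ q, N < q → a q = 0)
    (hi : i < k) (hj : k < j) (ai : 0 < a i) (aj : 0 < a j) :
    ∃ i' j' : ℕ, i' < k ∧ k < j' ∧ 0 < a i' ∧ 0 < a j' ∧
      ∀ p q : ℕ, p < k → k < q → 0 < a p → 0 < a q →
        ch k p q (Real.log (a p)) (Real.log (a q)) ≤ ch k i' j' (Real.log (a i')) (Real.log (a j')) := by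
  have hN : ∀ q, 0 < a q → q < N + 1 := fun q hq => by
    by_contra hc
    have := hz q (by omega)
    omega
  let S : Finset (ℕ × ℕ) := (Finset.range (N + 1) ×ˢ Finset.range (N + 1)).filter
    (fun p => p.1 < k ∧ k < p.2 ∧ 0 < a p.1 ∧ 0 < a p.2)
  have hS : ∀ p : ℕ × ℕ, p ∈ S ↔ p.1 < k ∧ k < p.2 ∧ 0 < a p.1 ∧ 0 < a p.2 := by
    intro p
    simp only [S, Finset.mem_filter, Finset.mem_product, Finset.mem_range]
    constructor
    · rintro ⟨_, h⟩
      exact h
    · intro h
      exact ⟨⟨hN _ h.2.2.1, hN _ h.2.2.2⟩, h⟩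
  have hne : S.Nonempty := ⟨(i, j), (hS _).2 ⟨hi, hj, ai, aj⟩⟩
  obtain ⟨p, hp, hmax⟩ := Finset.exists_max_image S
    (fun p : ℕ × ℕ => ch k p.1 p.2 (Real.log (a p.1)) (Real.log (a p.2))) hne
  have hp' := (hS p).1 hp
  exact ⟨p.1, p.2, hp'.1, hp'.2.1, hp'.2.2.1, hp'.2.2.2, fun x y h1 h2 h3 h4 =>
    hmax (x, y) ((hS _).2 ⟨h1, h2, h3, h4⟩)⟩

/-- the core in both directions of the tilt -/
theorem core' {C : ℝ} (hC : ∀ (N : ℕ) (a : ℕ → ℕ) (x c : ℝ), Hyp N a → 0 < x → x ≤ 1 → 0 < c →
    (∀ q, (a q : ℝ) * x ^ q ≤ c) → ∀ i k j : ℕ, i ≤ k → k ≤ j → (a i : ℝ) * x ^ i = c → (a j : ℝ) * x ^ j = c →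
      c ≤ Real.exp (C * Real.sqrt ((N + 1) * Real.log (N + 2))) * ((a k : ℝ) * x ^ k))
    (N : ℕ) (a : ℕ → ℕ) (ha : Hyp N a) (hb : Hyp N (fun q => if q ≤ N then a (N - q) else 0)) (y c : ℝ)
    (hy : 0 < y) (hc : 0 < c) (hle : ∀ q, (a q : ℝ) * y ^ q ≤ c) (i k j : ℕ) (hik : i ≤ k) (hkj : k ≤ j)
    (hjN : j ≤ N) (ei : (a i : ℝ) * y ^ i = c) (ej : (a j : ℝ) * y ^ j = c) :
    c ≤ Real.exp (C * Real.sqrt ((N + 1) * Real.log (N + 2))) * ((a k : ℝ) * y ^ k) := by
  by_cases hy1 : y ≤ 1
  · exact hC N a y c ha hy hy1 hc hle i k j hik hkj ei ej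
  · have hy2 : 1 < y := not_le.1 hy1
    have hyN : 0 < y ^ N := pow_pos hy N
    have hterm : ∀ q, q ≤ N → (((if q ≤ N then a (N - q) else 0 : ℕ) : ℝ) * y⁻¹ ^ q) =
        (a (N - q) : ℝ) * y ^ (N - q) / y ^ N := by
      intro q hq
      rw [if_pos hq]
      have h1 : y ^ N = y ^ (N - q) * y ^ q := by rw [← pow_add]; congr 1; omega
      rw [h1, inv_pow]
      have h2 : y ^ q ≠ 0 := (pow_pos hy q).ne'
      have h3 : y ^ (N - q) ≠ 0 := (pow_pos hy _).ne'
      field_simp
    have h := hC N (fun q => if q ≤ N then a (N - q) else 0) y⁻¹ (c / y ^ N) hb (inv_pos.2 hy)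
      (inv_le_one_of_one_le₀ hy2.le) (div_pos hc hyN) (fun q => by
        by_cases hq : q ≤ N
        · rw [hterm q hq]
          exact div_le_div_of_nonneg_right (hle _) hyN.le
        · simp only [if_neg hq, Nat.cast_zero, zero_mul]
          exact (div_pos hc hyN).le) (N - j) (N - k) (N - i) (by omega) (by omega)
      ((hterm (N - j) (by omega)).trans (by rw [show N - (N - j) = j by omega, ej]))
      ((hterm (N - i) (by omega)).trans (by rw [show N - (N - i) = i by omega, ei]))
    have h1 := (hterm (N - k) (by omega)).trans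
      (show _ = (a k : ℝ) * y ^ k / y ^ N by rw [show N - (N - k) = k by omega])
    have h2 : c / y ^ N ≤ Real.exp (C * Real.sqrt ((N + 1) * Real.log (N + 2))) *
        ((a k : ℝ) * y ^ k / y ^ N) := by
      rw [← h1]
      exact h
    rw [← mul_div_assoc, div_le_div_iff_of_pos_right hyN] at h2
    exact h2

/-- **B4** -/
theorem hTilt : StCore → StTilt := by
  rintro ⟨C, hC0, hC⟩
  refine ⟨C, hC0, ?_⟩
  intro N a ha hb x hx i k j hik hkj
  have hE : 1 ≤ Real.exp (C * Real.sqrt ((N + 1) * Real.log (N + 2))) :=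
    Real.one_le_exp (mul_nonneg hC0.le (Real.sqrt_nonneg _))
  have hak : 0 ≤ (a k : ℝ) * x ^ k := mul_nonneg (Nat.cast_nonneg _) (pow_pos hx _).le
  have htriv : (a k : ℝ) * x ^ k ≤
      Real.exp (C * Real.sqrt ((N + 1) * Real.log (N + 2))) * ((a k : ℝ) * x ^ k) := by
    have := mul_le_mul_of_nonneg_right hE hak
    linarith
  have hnn : 0 ≤ Real.exp (C * Real.sqrt ((N + 1) * Real.log (N + 2))) * ((a k : ℝ) * x ^ k) :=
    hak.trans htriv
  rcases hik.eq_or_lt with e | hik'
  · rw [e]
    exact (min_le_left _ _).trans htriv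
  rcases hkj.eq_or_lt with e | hkj'
  · rw [← e]
    exact (min_le_right _ _).trans htriv
  rcases Nat.eq_zero_or_pos (a i) with e | ai
  · rw [e, Nat.cast_zero, zero_mul]
    exact (min_le_left _ _).trans hnn
  rcases Nat.eq_zero_or_pos (a j) with e | aj
  · rw [e, Nat.cast_zero, zero_mul]
    exact (min_le_right _ _).trans hnn
  obtain ⟨i', j', hi', hj', ai', aj', hmax⟩ := best ha.1 hik' hkj' ai aj
  have hjN : j' ≤ N := by
    by_contra hc
    have := ha.1 j' (by omega)
    omega
  have hi'r : (i' : ℝ) < k := by exact_mod_cast hi'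
  have hj'r : (k : ℝ) < j' := by exact_mod_cast hj'
  have hij'r : (i' : ℝ) < j' := hi'r.trans hj'r
  have hd : (j' : ℝ) - i' ≠ 0 := by
    have : (0 : ℝ) < j' - i' := by linarith
    exact this.ne'
  -- the tilt
  obtain ⟨l, hl⟩ : ∃ l : ℝ, l = (Real.log (a i') - Real.log (a j')) / ((j' : ℝ) - i') := ⟨_, rfl⟩
  have hl1 : l * ((j' : ℝ) - i') = Real.log (a i') - Real.log (a j') := by
    rw [hl, div_mul_cancel₀ _ hd]
  obtain ⟨w, hw⟩ : ∃ w : ℝ, w = Real.log (a i') + i' * l := ⟨_, rfl⟩
  have hw2 : w = Real.log (a j') + j' * l := by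
    rw [hw]
    linarith
  have hch : ch k i' j' (Real.log (a i')) (Real.log (a j')) + k * l = w := by
    rw [← ch_tilt hij'r, ← hw, ← hw2, ch_same hij'r]
  -- the claim
  have key : Real.exp w ≤ Real.exp (C * Real.sqrt ((N + 1) * Real.log (N + 2))) *
      ((a k : ℝ) * Real.exp l ^ k) := by
    by_cases hbig : Real.exp w ≤ (a k : ℝ) * Real.exp l ^ k
    · have h0 : 0 ≤ (a k : ℝ) * Real.exp l ^ k :=
        mul_nonneg (Nat.cast_nonneg _) (pow_pos (Real.exp_pos _) _).le
      have := mul_le_mul_of_nonneg_right hE h0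
      linarith
    · have hsm : (a k : ℝ) * Real.exp l ^ k < Real.exp w := not_le.1 hbig
      refine core' hC N a ha hb (Real.exp l) (Real.exp w) (Real.exp_pos _) (Real.exp_pos _) ?_ i' k j'
        hi'.le hj'.le hjN ?_ ?_
      · intro q
        rcases Nat.eq_zero_or_pos (a q) with e | aq
        · rw [e, Nat.cast_zero, zero_mul]
          exact (Real.exp_pos _).le
        rcases lt_trichotomy q k with hq | hq | hq
        · rw [term_eq aq, Real.exp_le_exp]
          by_contra hcon
          have hcon' := not_le.1 hcon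
          have hqr : (q : ℝ) < k := by exact_mod_cast hq
          have h1 := ch_left hqr hj'r hcon'
          have h2 : ch k q j' (Real.log (a q) + q * l) w =
              ch k q j' (Real.log (a q)) (Real.log (a j')) + k * l := by
            rw [hw2, ch_tilt (hqr.trans hj'r)]
          have h3 := hmax q j' hq hj' aq aj'
          linarith
        · rw [hq]
          exact hsm.le
        · rw [term_eq aq, Real.exp_le_exp]
          by_contra hcon
          have hcon' := not_le.1 hcon
          have hqr : (k : ℝ) < q := by exact_mod_cast hq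
          have h1 := ch_right hi'r hqr hcon'
          have h2 : ch k i' q w (Real.log (a q) + q * l) =
              ch k i' q (Real.log (a i')) (Real.log (a q)) + k * l := by
            rw [hw, ch_tilt (hi'r.trans hqr)]
          have h3 := hmax i' q hi' hq ai' aq
          linarith
      · rw [term_eq ai', hw]
      · rw [term_eq aj', hw2]
  have akp : 0 < a k := by
    rcases Nat.eq_zero_or_pos (a k) with e | h
    · rw [e, Nat.cast_zero, zero_mul, mul_zero] at key
      exact absurd key (not_le.2 (Real.exp_pos _))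
    · exact h
  have key2 : w ≤ C * Real.sqrt ((N + 1) * Real.log (N + 2)) + (Real.log (a k) + k * l) := by
    rw [term_eq akp, ← Real.exp_add, Real.exp_le_exp] at key
    exact key
  -- the given tilt
  obtain ⟨m, hm⟩ : ∃ m : ℝ, Real.exp m = x := ⟨Real.log x, Real.exp_log hx⟩
  have hir : (i : ℝ) < k := by exact_mod_cast hik'
  have hjr : (k : ℝ) < j := by exact_mod_cast hkj'
  rw [← hm, term_eq ai, term_eq aj, term_eq akp, ← Real.exp_add]
  have h1 := ch_min (u := Real.log (a i) + i * m) (v := Real.log (a j) + j * m) hir hjr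
  rw [ch_tilt (hir.trans hjr)] at h1
  have h2 := hmax i j hik' hkj' ai aj
  have h3 : min (Real.log (a i) + i * m) (Real.log (a j) + j * m) ≤
      C * Real.sqrt ((N + 1) * Real.log (N + 2)) + (Real.log (a k) + k * m) := by
    linarith
  rcases min_le_iff.1 h3 with h4 | h4
  · exact min_le_iff.2 (Or.inl (Real.exp_le_exp.2 h4))
  · exact min_le_iff.2 (Or.inr (Real.exp_le_exp.2 h4))

end Pool.Agent.Helper19.PE
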